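import Pool.Agent.Helper70_Net.NetDef

set_option autoImplicit false

open scoped ContDiff
open Set MeasureTheory

namespace Helper70.Net

noncomputable def v0 : Option Bool → Pt
  | none => (1 / 2, r3 / 2)
  | some _ => (1, 0)

lemma dot_v0 (b : Option Bool) : dot (v0 b) (v0 b) = 1 := by
  cases b with
  | none =>
    have := r3_sq
    unfold dot v0
    simp only
    linear_combination (1 / 4) * this
  | some b => unfold dot v0; simp

lemma curveE_deriv0 (m : ℝ) (e : Ed) : deriv (curveE m e) 0 = TT (grp e) (v0 e.2) := by
  unfold curveE
  rw [TT_deriv _ (base_contDiff m e.2)]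
  obtain ⟨k, b⟩ := e
  cases b with
  | none => simp only [base_none_deriv, v0]
  | some b =>
    simp only [base_some_deriv, gam_deriv, v0, add_zero, g1_lt 1 (by norm_num), mul_zero, sub_zero,
      neg_zero]

lemma curveE_deriv1 (m : ℝ) (k : Fin 3) (s : ℝ) :
    deriv (curveE m (k, none)) s = TT (grp (k, none)) (v0 none) := by
  unfold curveE
  rw [TT_deriv _ (base_contDiff m _)]
  simp only [base_none_deriv, v0]

lemma final_balance : ∀ v : VV, v ∉ unb →
    (∑ e : Ed, if srcV e = v then TT (grp e) (v0 e.2) else 0) +
    (∑ e : Ed, if tgtV e = v then - TT (grp e) (v0 none) else 0) = 0 := by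
  intro v hv
  have hr := r3_sq
  rcases v with _ | ⟨k, b⟩
  · simp only [Fintype.sum_prod_type, Fin.sum_univ_three, Fintype.sum_option, Fintype.sum_bool,
      srcV, tgtV, grp, v0]
    simp [TT00, TT10, TT20, RL_apply]
    constructor
    · linear_combination (-1 / 8) * hr
    · linear_combination (-r3 / 8) * hr
  · cases b with
    | true =>
      exfalso
      fin_cases k <;> exact hv (by decide)
    | false =>
      simp only [Fintype.sum_prod_type, Fin.sum_univ_three, Fintype.sum_option, Fintype.sum_bool,
        srcV, tgtV, grp, v0]
      fin_cases k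
      · simp [TT00, TT01, ML_apply]
        norm_num
      · simp [TT10, TT11, ML_apply, RL_apply]
        constructor <;> ring
      · simp [TT20, TT21, ML_apply, RL_apply]
        constructor <;> ring

lemma tgt_long (k : Fin 3) (b : Bool) : tgtV (k, some b) ∈ unb := by
  revert k b; decide

/-- The honeycomb net. -/
noncomputable def theNet {m : ℝ} (hm : 0 < m) (hm' : m < 1 / 20) :
    GeodesicNet (conf (uu m) (uu_contDiff m)) where
  V := VV
  E := Ed
  pos := posV m
  pos_injective := posV_injective hm hm'
  src := srcV
  tgt := tgtV
  len e := lenB m e.2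
  len_pos e := lenB_pos hm hm' e.2
  curve := curveE m
  curve_smooth e := (TT (grp e)).contDiff.comp (base_contDiff m e.2)
  curve_geodesic e t ht := curveE_geodesic hm hm' e ht
  curve_regular e t _ := curveE_regular hm hm' e t
  curve_src e := curveE_src e
  curve_tgt e := curveE_tgt hm hm' e
  simple e s _ t _ h := Or.inl (curveE_injective e h)
  disjoint e f hef s hs t ht h :=
    ⟨disj1 hm hm' e f hef hs ht h, disj1 hm hm' f e hef.symm ht hs h.symm⟩
  avoid e v t ht h := curveE_avoid hm hm' e v ht h
  connected v w := (conn1 v).trans (conn2 w)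
  unbalanced := unb
  degree_ge v hv := (deg_lemma v hv).ge
  balance v hv := by
    refine Eq.trans ?_ (final_balance v hv)
    congr 1
    · refine Finset.sum_congr rfl fun e _ => ?_
      split_ifs with h
      · rw [curveE_deriv0, norm_posV hm hm', inv_one, one_smul]
        rw [TT_dot, dot_v0]
      · rfl
    · refine Finset.sum_congr rfl fun e _ => ?_
      split_ifs with h
      · obtain ⟨k, b⟩ := e
        cases b with
        | none =>
          rw [curveE_deriv1, norm_posV hm hm', inv_one, one_smul]
          rw [TT_dot, dot_v0]
        | some b =>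
          exact absurd (h ▸ tgt_long k b) hv
      · rfl
  no_unbalanced_edge e h := srcV_not_unb e h.1

end Helper70.Net
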