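import Pool.Agent.Helper70_Net.Conformal

set_option autoImplicit false

open scoped ContDiff
open Set MeasureTheory

namespace Helper70.Net

noncomputable def r3 : ℝ := Real.sqrt 3

lemma r3_sq : r3 ^ 2 = 3 := Real.sq_sqrt (by norm_num)
lemma r3_pos : 0 < r3 := Real.sqrt_pos.mpr (by norm_num)
lemma r3_lb : 1.73 < r3 := by
  have := r3_sq; have := r3_pos; nlinarith
lemma r3_ub : r3 < 1.74 := by
  have := r3_sq; have := r3_pos; nlinarith

/-- The profile of the bend. -/
noncomputable def gg (t : ℝ) : ℝ := (t - 2) * Real.smoothTransition (t - 2)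
noncomputable def g1 : ℝ → ℝ := deriv gg
noncomputable def g2 : ℝ → ℝ := deriv g1

lemma gg_contDiff : ContDiff ℝ ∞ gg := by
  unfold gg
  have h : ContDiff ℝ ∞ (fun t : ℝ => t - 2) := contDiff_id.sub contDiff_const
  exact h.mul (Real.smoothTransition.contDiff.comp h)

lemma g1_contDiff : ContDiff ℝ ∞ g1 := (contDiff_infty_iff_deriv.mp gg_contDiff).2
lemma g2_contDiff : ContDiff ℝ ∞ g2 := (contDiff_infty_iff_deriv.mp g1_contDiff).2

lemma gg_hasDerivAt (t : ℝ) : HasDerivAt gg (g1 t) t :=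
  (gg_contDiff.differentiable (by simp) t).hasDerivAt
lemma g1_hasDerivAt (t : ℝ) : HasDerivAt g1 (g2 t) t :=
  (g1_contDiff.differentiable (by simp) t).hasDerivAt

lemma gg_le (t : ℝ) (h : t ≤ 2) : gg t = 0 := by
  unfold gg; rw [Real.smoothTransition.zero_of_nonpos (by linarith)]; simp
lemma gg_ge (t : ℝ) (h : 3 ≤ t) : gg t = t - 2 := by
  unfold gg; rw [Real.smoothTransition.one_of_one_le (by linarith)]; simp
lemma gg_nonneg (t : ℝ) : 0 ≤ gg t := by
  rcases le_total t 2 with h | h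
  · rw [gg_le t h]
  · exact mul_nonneg (by linarith) (Real.smoothTransition.nonneg _)
lemma gg_le_sub (t : ℝ) (h : 2 ≤ t) : gg t ≤ t - 2 := by
  unfold gg
  have := Real.smoothTransition.le_one (t - 2)
  nlinarith

lemma g1_lt (t : ℝ) (h : t < 2) : g1 t = 0 := by
  unfold g1
  have : gg =ᶠ[nhds t] fun _ => 0 := by
    filter_upwards [Iio_mem_nhds h] with s hs
    exact gg_le s (le_of_lt hs)
  rw [this.deriv_eq]; simp
lemma g1_gt (t : ℝ) (h : 3 < t) : g1 t = 1 := by
  unfold g1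
  have : gg =ᶠ[nhds t] fun s => s - 2 := by
    filter_upwards [Ioi_mem_nhds h] with s hs
    exact gg_ge s (le_of_lt hs)
  rw [this.deriv_eq]; simp
lemma g2_lt (t : ℝ) (h : t < 2) : g2 t = 0 := by
  unfold g2
  have : g1 =ᶠ[nhds t] fun _ => 0 := by
    filter_upwards [Iio_mem_nhds h] with s hs
    exact g1_lt s hs
  rw [this.deriv_eq]; simp
lemma g2_gt (t : ℝ) (h : 3 < t) : g2 t = 0 := by
  unfold g2
  have : g1 =ᶠ[nhds t] fun _ => 1 := by
    filter_upwards [Ioi_mem_nhds h] with s hs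
    exact g1_gt s hs
  rw [this.deriv_eq]; simp

noncomputable def kap (m : ℝ) : ℝ := 2 * m ^ 2 / (1 + m ^ 2)
noncomputable def sig (m : ℝ) : ℝ := 2 * m / (1 + m ^ 2)

noncomputable def AA (m t : ℝ) : ℝ :=
  (Real.log (1 + m ^ 2) - Real.log (1 + m ^ 2 * (1 - 2 * g1 t) ^ 2)) / 2
noncomputable def BB (m t : ℝ) : ℝ :=
  - 2 * m * (1 + m ^ 2) * g2 t * (1 - m ^ 2 * (1 - 2 * g1 t) ^ 2) /
    (1 + m ^ 2 * (1 - 2 * g1 t) ^ 2) ^ 2

noncomputable def tau (m : ℝ) (p : Pt) : ℝ := p.1 + m * (r3 - p.2)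
noncomputable def nu (m : ℝ) (p : Pt) : ℝ := p.2 - r3 + sig m * gg (tau m p)

/-- The conformal factor in one sector. -/
noncomputable def bb (m : ℝ) (p : Pt) : ℝ :=
  Real.smoothTransition (2 - 16 * nu m p ^ 2) * (AA m (tau m p) + BB m (tau m p) * nu m p)

lemma bb_contDiff : ContDiff ℝ ∞ (fun q : ℝ × Pt => bb q.1 q.2) := by
  have hm : ContDiff ℝ ∞ (fun q : ℝ × Pt => q.1) := contDiff_fst
  have hx : ContDiff ℝ ∞ (fun q : ℝ × Pt => q.2.1) := contDiff_fst.comp contDiff_snd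
  have hy : ContDiff ℝ ∞ (fun q : ℝ × Pt => q.2.2) := contDiff_snd.comp contDiff_snd
  have ht : ContDiff ℝ ∞ (fun q : ℝ × Pt => tau q.1 q.2) := by
    unfold tau
    exact hx.add (hm.mul (contDiff_const.sub hy))
  have hg : ContDiff ℝ ∞ (fun q : ℝ × Pt => gg (tau q.1 q.2)) := gg_contDiff.comp ht
  have hg1 : ContDiff ℝ ∞ (fun q : ℝ × Pt => g1 (tau q.1 q.2)) := g1_contDiff.comp ht
  have hg2 : ContDiff ℝ ∞ (fun q : ℝ × Pt => g2 (tau q.1 q.2)) := g2_contDiff.comp ht
  have h1 : ContDiff ℝ ∞ (fun q : ℝ × Pt => 1 + q.1 ^ 2) := contDiff_const.add (hm.pow 2)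
  have hs : ContDiff ℝ ∞ (fun q : ℝ × Pt => sig q.1) := by
    unfold sig
    refine (contDiff_const.mul hm).div h1 (fun q => by positivity)
  have hn : ContDiff ℝ ∞ (fun q : ℝ × Pt => nu q.1 q.2) := by
    unfold nu
    exact (hy.sub contDiff_const).add (hs.mul hg)
  have hc : ContDiff ℝ ∞ (fun q : ℝ × Pt => (1 - 2 * g1 (tau q.1 q.2)) ^ 2) :=
    (contDiff_const.sub (contDiff_const.mul hg1)).pow 2
  have hE : ContDiff ℝ ∞ (fun q : ℝ × Pt => 1 + q.1 ^ 2 * (1 - 2 * g1 (tau q.1 q.2)) ^ 2) :=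
    contDiff_const.add ((hm.pow 2).mul hc)
  have hA : ContDiff ℝ ∞ (fun q : ℝ × Pt => AA q.1 (tau q.1 q.2)) := by
    unfold AA
    exact ((h1.log (fun q => by positivity)).sub (hE.log (fun q => by positivity))).div_const 2
  have hB : ContDiff ℝ ∞ (fun q : ℝ × Pt => BB q.1 (tau q.1 q.2)) := by
    unfold BB
    refine ContDiff.div ?_ (hE.pow 2) (fun q => by positivity)
    exact (((contDiff_const.mul hm).mul h1).mul hg2).mul (contDiff_const.sub ((hm.pow 2).mul hc))
  unfold bb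
  exact (Real.smoothTransition.contDiff.comp (contDiff_const.sub (contDiff_const.mul (hn.pow 2)))).mul
    (hA.add (hB.mul hn))

lemma bb_zero (p : Pt) : bb 0 p = 0 := by
  simp [bb, AA, BB]

lemma bb_support {m : ℝ} {p : Pt} (h : bb m p ≠ 0) :
    2 ≤ tau m p ∧ tau m p ≤ 3 ∧ nu m p ^ 2 ≤ 1 / 8 := by
  refine ⟨?_, ?_, ?_⟩
  · by_contra hc
    push Not at hc
    apply h
    simp [bb, AA, BB, g1_lt _ hc, g2_lt _ hc]
  · by_contra hc
    push Not at hc
    apply h
    simp [bb, AA, BB, g1_gt _ hc, g2_gt _ hc]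
    right
    norm_num
  · by_contra hc
    push Not at hc
    apply h
    unfold bb
    rw [Real.smoothTransition.zero_of_nonpos (by linarith)]
    simp

/-- The open sector `0 < y < √3 x`. -/
def OS (p : Pt) : Prop := 0 < p.2 ∧ p.2 < r3 * p.1
/-- The closed sector `0 ≤ y ≤ √3 x`. -/
def CS (p : Pt) : Prop := 0 ≤ p.2 ∧ p.2 ≤ r3 * p.1

lemma sig_bounds {m : ℝ} (hm : 0 < m) (hm' : m < 1 / 20) : 0 < sig m ∧ sig m < 1 / 10 := by
  unfold sig
  constructor
  · positivity
  · rw [div_lt_iff₀ (by positivity)]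
    nlinarith [sq_nonneg m]

/-- The support of `bb m` is contained in a closed set inside the open sector. -/
def SupSet (m : ℝ) : Set Pt := {p | 2 ≤ tau m p ∧ tau m p ≤ 3 ∧ nu m p ^ 2 ≤ 1 / 8}

lemma tau_continuous (m : ℝ) : Continuous (tau m) := by unfold tau; fun_prop
lemma nu_continuous (m : ℝ) : Continuous (nu m) := by
  unfold nu
  have := gg_contDiff.continuous.comp (tau_continuous m)
  exact (by fun_prop : Continuous fun p : Pt => p.2 - r3).add (continuous_const.mul this)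

lemma supSet_closed (m : ℝ) : IsClosed (SupSet m) := by
  unfold SupSet
  refine (isClosed_le continuous_const (tau_continuous m)).inter
    ((isClosed_le (tau_continuous m) continuous_const).inter
      (isClosed_le ((nu_continuous m).pow 2) continuous_const))

lemma bb_eq_zero_of_notMem {m : ℝ} {p : Pt} (h : p ∉ SupSet m) : bb m p = 0 := by
  by_contra hc
  exact h (bb_support hc)

lemma supSet_bounds {m : ℝ} (hm : 0 < m) (hm' : m < 1 / 20) {p : Pt} (h : p ∈ SupSet m) :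
    1.2 < p.2 ∧ p.2 < 2.2 ∧ 1.9 < p.1 ∧ p.1 < 3.1 := by
  obtain ⟨h1, h2, h3⟩ := h
  obtain ⟨s1, s2⟩ := sig_bounds hm hm'
  have hr1 := r3_lb
  have hr2 := r3_ub
  have hg0 := gg_nonneg (tau m p)
  have hg1 := gg_le_sub (tau m p) h1
  have hn1 : -0.36 < nu m p := by nlinarith
  have hn2 : nu m p < 0.36 := by nlinarith
  have hsg : sig m * gg (tau m p) ≤ 1 / 10 := by nlinarith
  have hsg0 : 0 ≤ sig m * gg (tau m p) := by positivity
  unfold nu at hn1 hn2
  have hy1 : 1.2 < p.2 := by linarith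
  have hy2 : p.2 < 2.2 := by linarith
  unfold tau at h1 h2
  refine ⟨hy1, hy2, ?_, ?_⟩
  · nlinarith
  · nlinarith

lemma supSet_OS {m : ℝ} (hm : 0 < m) (hm' : m < 1 / 20) {p : Pt} (h : p ∈ SupSet m) : OS p := by
  obtain ⟨h1, h2, h3, h4⟩ := supSet_bounds hm hm' h
  have hr1 := r3_lb
  refine ⟨by linarith, by nlinarith⟩

/-! ### The curve -/

noncomputable def gam (m t : ℝ) : Pt := (t - kap m * gg t, r3 - sig m * gg t)

lemma gam_contDiff (m : ℝ) : ContDiff ℝ ∞ (gam m) := by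
  unfold gam
  exact (contDiff_id.sub (contDiff_const.mul gg_contDiff)).prodMk
    (contDiff_const.sub (contDiff_const.mul gg_contDiff))

lemma gam_hasDerivAt (m t : ℝ) :
    HasDerivAt (gam m) (1 - kap m * g1 t, - (sig m * g1 t)) t := by
  unfold gam
  refine HasDerivAt.prodMk ?_ ?_
  · exact (hasDerivAt_id t).sub ((gg_hasDerivAt t).const_mul _)
  · exact ((gg_hasDerivAt t).const_mul _).const_sub _

lemma gam_deriv (m : ℝ) : deriv (gam m) = fun t => (1 - kap m * g1 t, - (sig m * g1 t)) :=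
  funext fun t => (gam_hasDerivAt m t).deriv

lemma gam_deriv2 (m t : ℝ) :
    deriv (deriv (gam m)) t = (- (kap m * g2 t), - (sig m * g2 t)) := by
  rw [gam_deriv]
  refine HasDerivAt.deriv ?_
  refine HasDerivAt.prodMk ?_ ?_
  · exact ((g1_hasDerivAt t).const_mul _).const_sub _
  · exact ((g1_hasDerivAt t).const_mul _).neg

lemma m_sig (m : ℝ) : m * sig m = kap m := by
  unfold sig kap; ring

lemma tau_gam (m t : ℝ) : tau m (gam m t) = t := by
  unfold tau gam
  simp only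
  have := m_sig m
  linear_combination (gg t) * this

lemma nu_gam (m t : ℝ) : nu m (gam m t) = 0 := by
  unfold nu
  rw [tau_gam]
  unfold gam
  ring

lemma AA_hasDerivAt (m t : ℝ) :
    HasDerivAt (AA m) (2 * m ^ 2 * (1 - 2 * g1 t) * g2 t / (1 + m ^ 2 * (1 - 2 * g1 t) ^ 2)) t := by
  unfold AA
  have h1 : HasDerivAt (fun t => 1 + m ^ 2 * (1 - 2 * g1 t) ^ 2)
      (m ^ 2 * (2 * (1 - 2 * g1 t) ^ 1 * (-(2 * g2 t)))) t := by
    have := ((((g1_hasDerivAt t).const_mul 2).const_sub 1).pow 2).const_mul (m ^ 2)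
    have := this.const_add 1
    simpa using this
  have h2 := h1.log (by positivity)
  have h3 := (h2.const_sub (Real.log (1 + m ^ 2))).div_const 2
  refine HasDerivAt.congr_deriv h3 ?_
  ring

lemma BB_differentiable (m : ℝ) : Differentiable ℝ (BB m) := by
  unfold BB
  have h1 : Differentiable ℝ g1 := g1_contDiff.differentiable (by simp)
  have h2 : Differentiable ℝ g2 := g2_contDiff.differentiable (by simp)
  intro t
  have h1' := h1 t
  have h2' := h2 t
  have hne : (1 + m ^ 2 * (1 - 2 * g1 t) ^ 2) ^ 2 ≠ 0 := by positivity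
  fun_prop (disch := assumption)

lemma bb_eventually {m t : ℝ} :
    bb m =ᶠ[nhds (gam m t)] fun p => AA m (tau m p) + BB m (tau m p) * nu m p := by
  have hc : Continuous (fun p => 16 * nu m p ^ 2) := continuous_const.mul ((nu_continuous m).pow 2)
  have h0 : 16 * nu m (gam m t) ^ 2 < 1 := by rw [nu_gam]; norm_num
  filter_upwards [hc.continuousAt.eventually_lt continuousAt_const h0] with p hp
  unfold bb
  rw [Real.smoothTransition.one_of_one_le (by linarith), one_mul]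

noncomputable def tauL (m : ℝ) : Pt →L[ℝ] ℝ :=
  ContinuousLinearMap.fst ℝ ℝ ℝ - m • ContinuousLinearMap.snd ℝ ℝ ℝ

lemma tau_hasFDerivAt (m : ℝ) (p : Pt) : HasFDerivAt (tau m) (tauL m) p := by
  have h1 : HasFDerivAt (fun p : Pt => p.1) (ContinuousLinearMap.fst ℝ ℝ ℝ) p := hasFDerivAt_fst
  have h2 : HasFDerivAt (fun p : Pt => p.2) (ContinuousLinearMap.snd ℝ ℝ ℝ) p := hasFDerivAt_snd
  have h3 := h1.add ((h2.const_sub r3).const_mul m)
  refine HasFDerivAt.congr_fderiv h3 ?_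
  simp [tauL, sub_eq_add_neg]

lemma nu_hasFDerivAt (m : ℝ) (p : Pt) :
    HasFDerivAt (nu m) (ContinuousLinearMap.snd ℝ ℝ ℝ + sig m • (g1 (tau m p) • tauL m)) p := by
  have h2 : HasFDerivAt (fun p : Pt => p.2) (ContinuousLinearMap.snd ℝ ℝ ℝ) p := hasFDerivAt_snd
  have hg := (gg_hasDerivAt (tau m p)).comp_hasFDerivAt p (tau_hasFDerivAt m p)
  exact (h2.sub_const r3).add (hg.const_mul (sig m))

lemma bb_fderiv (m t : ℝ) (w : Pt) :
    fderiv ℝ (bb m) (gam m t) w =
      2 * m ^ 2 * (1 - 2 * g1 t) * g2 t / (1 + m ^ 2 * (1 - 2 * g1 t) ^ 2) * (w.1 - m * w.2) +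
      BB m t * (w.2 + sig m * (g1 t * (w.1 - m * w.2))) := by
  rw [bb_eventually.fderiv_eq]
  have hA := (AA_hasDerivAt m (tau m (gam m t))).comp_hasFDerivAt _ (tau_hasFDerivAt m (gam m t))
  have hB := ((BB_differentiable m (tau m (gam m t))).hasDerivAt).comp_hasFDerivAt _
    (tau_hasFDerivAt m (gam m t))
  have h := hA.add (hB.mul (nu_hasFDerivAt m (gam m t)))
  have h' := h.fderiv
  have : (fun p => AA m (tau m p) + BB m (tau m p) * nu m p) =
    ((AA m ∘ tau m) + (BB m ∘ tau m) * nu m) := rfl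
  rw [this, h']
  simp [nu_gam, tau_gam, tauL]
  ring

lemma gam_geoEq (m t : ℝ) :
    GeoEq (bb m) (gam m t) (deriv (gam m) t) (deriv (deriv (gam m)) t) := by
  intro w
  rw [bb_fderiv, bb_fderiv, gam_deriv2, gam_deriv]
  unfold BB kap sig
  simp only
  have h1 : (1 + m ^ 2) ≠ 0 := by positivity
  have h2 : (1 + m ^ 2 * (1 - 2 * g1 t) ^ 2) ≠ 0 := by positivity
  field_simp
  ring

end Helper70.Net
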