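import Pool.Agent.Helper70_Net.Defs

set_option autoImplicit false

open scoped ContDiff
open Set MeasureTheory

namespace Helper70.Net

lemma fderiv_apply_eq (u : Pt → ℝ) (p v : Pt) :
    fderiv ℝ u p v = v.1 * pd 0 u p + v.2 * pd 1 u p := by
  have h : v = v.1 • e 0 + v.2 • e 1 := by
    ext <;> simp [e]
  conv_lhs => rw [h]
  rw [map_add, map_smul, map_smul]
  simp [pd]

lemma contDiff_pd {u : Pt → ℝ} (hu : ContDiff ℝ ∞ u) (k : Fin 2) : ContDiff ℝ ∞ (pd k u) := by
  unfold pd
  exact (hu.fderiv_right (m := ∞) (by simp)).clm_apply contDiff_const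

lemma pd_exp {u : Pt → ℝ} (hu : ContDiff ℝ ∞ u) (k : Fin 2) (p : Pt) :
    pd k (fun p => Real.exp (2 * u p)) p = Real.exp (2 * u p) * (2 * pd k u p) := by
  have hd : DifferentiableAt ℝ u p := hu.differentiable (by simp) p
  have h := ((hd.hasFDerivAt.const_mul (2 : ℝ)).exp).fderiv
  unfold pd
  rw [h]
  simp

lemma pd_const (c : ℝ) (k : Fin 2) (p : Pt) : pd k (fun _ => c) p = 0 := by
  simp [pd]

lemma pd_neg {u : Pt → ℝ} (k : Fin 2) (p : Pt) : pd k (fun p => - u p) p = - pd k u p := by
  simp [pd, fderiv_fun_neg]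

/-- The conformal metric `e^{2u} (dx² + dy²)`. -/
noncomputable def conf (u : Pt → ℝ) (hu : ContDiff ℝ ∞ u) : RiemannianPlane where
  g i j p := if i = j then Real.exp (2 * u p) else 0
  smooth i j := by
    by_cases h : i = j
    · simp only [h, if_true]
      exact (contDiff_const.mul hu).exp
    · simp only [h, if_false]
      exact contDiff_const
  symm i j := by
    ext p
    simp [eq_comm]
  pos p v hv := by
    simp only [Fin.sum_univ_two, comp]
    simp
    have h1 : 0 < v.1 * v.1 + v.2 * v.2 := by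
      by_contra hcon
      push Not at hcon
      have h1 : v.1 = 0 := by nlinarith [mul_self_nonneg v.1, mul_self_nonneg v.2]
      have h2 : v.2 = 0 := by nlinarith [mul_self_nonneg v.1, mul_self_nonneg v.2]
      exact hv (Prod.ext h1 h2)
    have h2 := Real.exp_pos (2 * u p)
    nlinarith [mul_pos h2 h1]

section

variable {u : Pt → ℝ} (hu : ContDiff ℝ ∞ u)

lemma conf_g (i j : Fin 2) :
    (conf u hu).g i j = fun p => if i = j then Real.exp (2 * u p) else 0 := rfl

lemma conf_g00 : (conf u hu).g 0 0 = fun p => Real.exp (2 * u p) := by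
  ext p; simp [conf_g]
lemma conf_g11 : (conf u hu).g 1 1 = fun p => Real.exp (2 * u p) := by
  ext p; simp [conf_g]
lemma conf_g01 : (conf u hu).g 0 1 = fun _ => 0 := by
  ext p; simp [conf_g]
lemma conf_g10 : (conf u hu).g 1 0 = fun _ => 0 := by
  ext p; simp [conf_g]

lemma conf_gMat (p : Pt) :
    (conf u hu).gMat p = !![Real.exp (2 * u p), 0; 0, Real.exp (2 * u p)] := by
  ext i j
  fin_cases i <;> fin_cases j <;> simp [RiemannianPlane.gMat, conf_g]

lemma conf_detg (p : Pt) : (conf u hu).detg p = Real.exp (2 * u p) ^ 2 := by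
  unfold RiemannianPlane.detg
  rw [conf_gMat, Matrix.det_fin_two_of]
  ring

lemma conf_gMat_inv (p : Pt) :
    ((conf u hu).gMat p)⁻¹ = !![(Real.exp (2 * u p))⁻¹, 0; 0, (Real.exp (2 * u p))⁻¹] := by
  apply Matrix.inv_eq_right_inv
  rw [conf_gMat]
  have h : Real.exp (2 * u p) ≠ 0 := (Real.exp_pos _).ne'
  ext i j
  fin_cases i <;> fin_cases j <;> simp [h]

lemma conf_ginv (i j : Fin 2) (p : Pt) :
    (conf u hu).ginv i j p = if i = j then (Real.exp (2 * u p))⁻¹ else 0 := by
  unfold RiemannianPlane.ginv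
  rw [conf_gMat_inv]
  fin_cases i <;> fin_cases j <;> simp

lemma conf_christoffel_aux (i j k : Fin 2) (p : Pt) :
    (conf u hu).christoffel i j k p =
      (if i = k then pd j u p else 0) + (if i = j then pd k u p else 0) -
        (if j = k then pd i u p else 0) := by
  unfold RiemannianPlane.christoffel
  have h : Real.exp (2 * u p) ≠ 0 := (Real.exp_pos _).ne'
  simp only [conf_ginv, Fin.sum_univ_two]
  fin_cases i <;> fin_cases j <;> fin_cases k <;>
    simp [conf_g00, conf_g01, conf_g10, conf_g11, pd_exp hu, pd_const]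

lemma c000 : (conf u hu).christoffel 0 0 0 = fun p => pd 0 u p := by
  ext p; rw [conf_christoffel_aux]; simp
lemma c001 : (conf u hu).christoffel 0 0 1 = fun p => pd 1 u p := by
  ext p; rw [conf_christoffel_aux]; simp
lemma c010 : (conf u hu).christoffel 0 1 0 = fun p => pd 1 u p := by
  ext p; rw [conf_christoffel_aux]; simp
lemma c011 : (conf u hu).christoffel 0 1 1 = fun p => - pd 0 u p := by
  ext p; rw [conf_christoffel_aux]; simp
lemma c100 : (conf u hu).christoffel 1 0 0 = fun p => - pd 1 u p := by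
  ext p; rw [conf_christoffel_aux]; simp
lemma c101 : (conf u hu).christoffel 1 0 1 = fun p => pd 0 u p := by
  ext p; rw [conf_christoffel_aux]; simp
lemma c110 : (conf u hu).christoffel 1 1 0 = fun p => pd 0 u p := by
  ext p; rw [conf_christoffel_aux]; simp
lemma c111 : (conf u hu).christoffel 1 1 1 = fun p => pd 1 u p := by
  ext p; rw [conf_christoffel_aux]; simp

lemma conf_curvature (p : Pt) :
    (conf u hu).gaussCurvature p =
      - (Real.exp (2 * u p))⁻¹ * (pd 0 (pd 0 u) p + pd 1 (pd 1 u) p) := by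
  unfold RiemannianPlane.gaussCurvature RiemannianPlane.riemann
  have h : Real.exp (2 * u p) ≠ 0 := (Real.exp_pos _).ne'
  simp only [Fin.sum_univ_two, conf_detg, conf_g00, conf_g01, c000, c001, c010, c011, c100, c101,
    c110, c111, pd_neg]
  have e0 : pd 0 (fun p => pd 0 u p) p = pd 0 (pd 0 u) p := rfl
  have e1 : pd 1 (fun p => pd 1 u p) p = pd 1 (pd 1 u) p := rfl
  field_simp
  ring

lemma conf_K_mul (p : Pt) :
    (conf u hu).gaussCurvature p * Real.sqrt ((conf u hu).detg p) =
      - (pd 0 (pd 0 u) p + pd 1 (pd 1 u) p) := by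
  have h : Real.exp (2 * u p) ≠ 0 := (Real.exp_pos _).ne'
  rw [conf_curvature, conf_detg, Real.sqrt_sq (Real.exp_pos _).le]
  field_simp

lemma conf_norm (p v : Pt) :
    (conf u hu).norm p v = Real.sqrt (Real.exp (2 * u p) * (v.1 ^ 2 + v.2 ^ 2)) := by
  unfold RiemannianPlane.norm
  congr 1
  simp only [Fin.sum_univ_two, conf_g00, conf_g01, conf_g10, conf_g11, comp]
  simp
  ring

/-- The conformal geodesic equation, in weak form. -/
def GeoEq (u : Pt → ℝ) (p v a : Pt) : Prop :=
  ∀ w : Pt, (a.1 * w.1 + a.2 * w.2) + 2 * fderiv ℝ u p v * (v.1 * w.1 + v.2 * w.2) -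
    (v.1 ^ 2 + v.2 ^ 2) * fderiv ℝ u p w = 0

lemma isGeodesicAt_of_geoEq {γ : ℝ → Pt} {t : ℝ}
    (h : GeoEq u (γ t) (deriv γ t) (deriv (deriv γ) t)) : (conf u hu).IsGeodesicAt γ t := by
  intro i
  have h0 := h (1, 0)
  have h1 := h (0, 1)
  simp only [fderiv_apply_eq] at h0 h1
  simp only [Fin.sum_univ_two]
  fin_cases i
  · simp only [Fin.zero_eta, c000, c001, c010, c011, comp]
    simp at h0 ⊢
    linarith
  · simp only [Fin.mk_one, c100, c101, c110, c111, comp]
    simp at h1 ⊢
    linarith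

end

end Helper70.Net
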