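import Pool.Agent.Helper70_Net.Balance

set_option autoImplicit false

open scoped ContDiff
open Set MeasureTheory

namespace Helper70.Net

/-- Laplacian of the conformal factor. -/
noncomputable def lap (m : ℝ) (p : Pt) : ℝ := pd 0 (pd 0 (uu m)) p + pd 1 (pd 1 (uu m)) p

lemma slice_pd {W : ℝ × Pt → ℝ} (hW : ContDiff ℝ ∞ W) (m : ℝ) (k : Fin 2) (p : Pt) :
    pd k (fun p => W (m, p)) p = fderiv ℝ W (m, p) (0, e k) := by
  have h1 : HasFDerivAt W (fderiv ℝ W (m, p)) (m, p) :=
    (hW.differentiable (by simp) _).hasFDerivAt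
  have h2 := h1.comp p (hasFDerivAt_prodMk_right m p)
  have h3 : (fun p => W (m, p)) = W ∘ (fun p => (m, p)) := rfl
  unfold pd
  rw [h3, h2.fderiv]
  simp

lemma contDiff_slice {W : ℝ × Pt → ℝ} (hW : ContDiff ℝ ∞ W) (k : Fin 2) :
    ContDiff ℝ ∞ (fun q : ℝ × Pt => fderiv ℝ W q (0, e k)) :=
  (hW.fderiv_right (m := ∞) (by simp)).clm_apply contDiff_const

lemma pdpd_continuous (k : Fin 2) :
    Continuous (fun q : ℝ × Pt => pd k (pd k (uu q.1)) q.2) := by
  have hW := uu_contDiff2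
  have h1 : ∀ m : ℝ, pd k (uu m) = fun p =>
      (fun q : ℝ × Pt => fderiv ℝ (fun q : ℝ × Pt => uu q.1 q.2) q (0, e k)) (m, p) := by
    intro m
    funext p
    exact slice_pd hW m k p
  have h2 : (fun q : ℝ × Pt => pd k (pd k (uu q.1)) q.2) = fun q : ℝ × Pt =>
      fderiv ℝ (fun q : ℝ × Pt => fderiv ℝ (fun q : ℝ × Pt => uu q.1 q.2) q (0, e k)) q
        (0, e k) := by
    funext q
    rw [h1]
    exact slice_pd (contDiff_slice hW k) q.1 k q.2
  rw [h2]
  exact (contDiff_slice (contDiff_slice hW k) k).continuous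

lemma lap_continuous : Continuous (fun q : ℝ × Pt => lap q.1 q.2) := by
  unfold lap
  exact (pdpd_continuous 0).add (pdpd_continuous 1)

lemma uu_zero : uu 0 = fun _ => 0 := by
  funext p
  unfold uu
  simp [bb_zero]

lemma lap_zero (p : Pt) : lap 0 p = 0 := by
  unfold lap
  rw [uu_zero]
  have h : ∀ k, pd k (fun _ : Pt => (0 : ℝ)) = fun _ => 0 := by
    intro k
    funext q
    exact pd_const 0 k q
  rw [h, h, h, h]
  simp

def Box : Set Pt := Icc ((-10 : ℝ), (-10 : ℝ)) ((10 : ℝ), (10 : ℝ))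

lemma uu_outside {m : ℝ} (hm : 0 < m) (hm' : m < 1 / 20) {p : Pt} (hp : 100 < dot p p) :
    uu m p = 0 := by
  unfold uu
  apply Finset.sum_eq_zero
  intro i _
  by_contra hc
  have h1 : TT i p ∈ SupSet m := bb_support hc
  obtain ⟨h2, h3, h4, h5⟩ := supSet_bounds hm hm' h1
  have h6 := TT_dot i p p
  unfold dot at h6 hp
  nlinarith

lemma dot_of_notMem_box {p : Pt} (hp : p ∉ Box) : 100 < dot p p := by
  by_contra hc
  push Not at hc
  apply hp
  unfold dot at hc
  unfold Box
  rw [mem_Icc, Prod.le_def, Prod.le_def]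
  simp only
  refine ⟨⟨?_, ?_⟩, ⟨?_, ?_⟩⟩
  · by_contra h; push Not at h; nlinarith [mul_self_nonneg p.2]
  · by_contra h; push Not at h; nlinarith [mul_self_nonneg p.1]
  · by_contra h; push Not at h; nlinarith [mul_self_nonneg p.2]
  · by_contra h; push Not at h; nlinarith [mul_self_nonneg p.1]

lemma lap_outside {m : ℝ} (hm : 0 < m) (hm' : m < 1 / 20) {p : Pt} (hp : p ∉ Box) :
    lap m p = 0 := by
  have hp' := dot_of_notMem_box hp
  have hopen : IsOpen {p : Pt | 100 < dot p p} := by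
    refine isOpen_lt continuous_const ?_
    unfold dot
    fun_prop
  have h0 : uu m =ᶠ[nhds p] fun _ => 0 := by
    filter_upwards [hopen.mem_nhds hp'] with q hq
    exact uu_outside hm hm' hq
  have h1 : ∀ k, pd k (uu m) =ᶠ[nhds p] fun _ => 0 := by
    intro k
    have := h0.fderiv (𝕜 := ℝ)
    filter_upwards [this] with q hq
    unfold pd
    rw [hq]
    simp
  unfold lap
  have h2 : ∀ k, pd k (pd k (uu m)) p = 0 := by
    intro k
    unfold pd
    have := (h1 k).fderiv_eq (𝕜 := ℝ)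
    change fderiv ℝ (pd k (uu m)) p (e k) = 0
    rw [this]
    simp
  rw [h2, h2, add_zero]

seal lap uu

lemma exists_small {ε : ℝ} (hε : 0 < ε) :
    ∃ m : ℝ, 0 < m ∧ m < 1 / 20 ∧ ∀ p ∈ Box, |lap m p| < ε := by
  have hopen : IsOpen {q : ℝ × Pt | |lap q.1 q.2| < ε} :=
    isOpen_lt lap_continuous.abs continuous_const
  have hcomp : IsCompact Box := isCompact_Icc
  have hsub : ({0} : Set ℝ) ×ˢ Box ⊆ {q : ℝ × Pt | |lap q.1 q.2| < ε} := by
    rintro ⟨m, p⟩ ⟨hm, _⟩
    simp only [mem_singleton_iff] at hm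
    subst hm
    simp [lap_zero, hε]
  obtain ⟨U, W, hU, _, h0, hW, hUW⟩ := generalized_tube_lemma isCompact_singleton hcomp hopen hsub
  have h0' : (0 : ℝ) ∈ U := h0 rfl
  obtain ⟨δ, hδ, hball⟩ := Metric.isOpen_iff.mp hU 0 h0'
  refine ⟨min (δ / 2) (1 / 40), by positivity, ?_, ?_⟩
  · exact lt_of_le_of_lt (min_le_right _ _) (by norm_num)
  · intro p hp
    have h1 : min (δ / 2) (1 / 40) ∈ U := by
      apply hball
      rw [Metric.mem_ball, Real.dist_eq, sub_zero, abs_of_pos (by positivity)]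
      exact lt_of_le_of_lt (min_le_left _ _) (by linarith)
    exact hUW (mk_mem_prod h1 (hW hp))

lemma volume_box : volume Box = ENNReal.ofReal 400 := by
  unfold Box
  rw [← Icc_prod_Icc, Measure.volume_eq_prod, Measure.prod_prod, Real.volume_Icc,
    ← ENNReal.ofReal_mul (by norm_num)]
  norm_num

lemma total_lt {ε : ℝ} (hε : 0 < ε) :
    ∃ m : ℝ, ∃ _ : 0 < m, ∃ _ : m < 1 / 20,
      ∫⁻ p : Pt, ENNReal.ofReal (|(conf (uu m) (uu_contDiff m)).gaussCurvature p| *
        Real.sqrt ((conf (uu m) (uu_contDiff m)).detg p)) < ENNReal.ofReal ε := by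
  obtain ⟨m, hm, hm', hsm⟩ := exists_small (ε := ε / 800) (by positivity)
  refine ⟨m, hm, hm', ?_⟩
  have h1 : ∀ p : Pt, ENNReal.ofReal (|(conf (uu m) (uu_contDiff m)).gaussCurvature p| *
        Real.sqrt ((conf (uu m) (uu_contDiff m)).detg p)) ≤
        Box.indicator (fun _ => ENNReal.ofReal (ε / 800)) p := by
    intro p
    have h2 : |(conf (uu m) (uu_contDiff m)).gaussCurvature p| *
        Real.sqrt ((conf (uu m) (uu_contDiff m)).detg p) = |lap m p| := by
      rw [← abs_of_nonneg (Real.sqrt_nonneg ((conf (uu m) (uu_contDiff m)).detg p)), ← abs_mul,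
        conf_K_mul, abs_neg]
      unfold lap
      rfl
    rw [h2]
    by_cases hp : p ∈ Box
    · rw [indicator_of_mem hp]
      exact ENNReal.ofReal_le_ofReal (hsm p hp).le
    · rw [lap_outside hm hm' hp]
      simp
  calc _ ≤ ∫⁻ p : Pt, Box.indicator (fun _ => ENNReal.ofReal (ε / 800)) p := lintegral_mono h1
    _ = ENNReal.ofReal (ε / 800) * volume Box := by
      have hmb : MeasurableSet Box := measurableSet_Icc
      rw [lintegral_indicator_const hmb]
    _ = ENNReal.ofReal (ε / 2) := by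
      rw [volume_box, ← ENNReal.ofReal_mul (by positivity)]
      congr 1
      ring
    _ < ENNReal.ofReal ε := by
      rw [ENNReal.ofReal_lt_ofReal_iff hε]
      linarith

end Helper70.Net
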