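import Mathlib

set_option autoImplicit false

open scoped ContDiff
open Set MeasureTheory

namespace Helper70.Net

/-- Points (and tangent vectors) of the plane. -/
abbrev Pt := ℝ × ℝ

/-- The coordinate vectors. -/
def e (k : Fin 2) : Pt := if k = 0 then (1, 0) else (0, 1)

/-- The components of a vector. -/
def comp (k : Fin 2) (v : Pt) : ℝ := if k = 0 then v.1 else v.2

/-- Partial derivative `∂_k f`. -/
noncomputable def pd (k : Fin 2) (f : Pt → ℝ) (p : Pt) : ℝ := fderiv ℝ f p (e k)

/-- A Riemannian plane: the plane `ℝ²` with a smooth Riemannian metric `g`. -/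
structure RiemannianPlane where
  g : Fin 2 → Fin 2 → Pt → ℝ
  smooth : ∀ i j, ContDiff ℝ ∞ (g i j)
  symm : ∀ i j, g i j = g j i
  pos : ∀ (p : Pt) (v : Pt), v ≠ 0 → 0 < ∑ i, ∑ j, g i j p * comp i v * comp j v

namespace RiemannianPlane

variable (M : RiemannianPlane)

/-- The matrix of the metric at a point. -/
def gMat (p : Pt) : Matrix (Fin 2) (Fin 2) ℝ := Matrix.of fun i j => M.g i j p

/-- The inverse matrix `g^{ij}`. -/
noncomputable def ginv (i j : Fin 2) (p : Pt) : ℝ := (M.gMat p)⁻¹ i j

/-- The determinant of the metric. -/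
noncomputable def detg (p : Pt) : ℝ := (M.gMat p).det

/-- Christoffel symbols `Γ^i_{jk}`. -/
noncomputable def christoffel (i j k : Fin 2) (p : Pt) : ℝ :=
  (1 / 2) * ∑ l, M.ginv i l p *
    (pd j (M.g l k) p + pd k (M.g l j) p - pd l (M.g j k) p)

/-- Curvature tensor: `R(∂_i, ∂_j) ∂_k = ∑_l riemann l k i j • ∂_l`. -/
noncomputable def riemann (l k i j : Fin 2) (p : Pt) : ℝ :=
  pd i (M.christoffel l j k) p - pd j (M.christoffel l i k) p +
    ∑ m, (M.christoffel l i m p * M.christoffel m j k p -
      M.christoffel l j m p * M.christoffel m i k p)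

/-- Gaussian curvature `K = ⟨R(∂_0, ∂_1) ∂_1, ∂_0⟩ / det g`. -/
noncomputable def gaussCurvature (p : Pt) : ℝ :=
  (∑ l, M.g 0 l p * M.riemann l 1 0 1 p) / M.detg p

/-- `∫ K⁺ dA`, as an extended nonnegative real. -/
noncomputable def totalPositiveCurvature : ENNReal :=
  ∫⁻ p : Pt, ENNReal.ofReal (max (M.gaussCurvature p) 0 * Real.sqrt (M.detg p))

/-- The Riemannian length of a vector `v` at `p`. -/
noncomputable def norm (p v : Pt) : ℝ := Real.sqrt (∑ i, ∑ j, M.g i j p * comp i v * comp j v)

/-- The curve `γ` satisfies the geodesic equation at time `t`. -/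
def IsGeodesicAt (γ : ℝ → Pt) (t : ℝ) : Prop :=
  ∀ i, comp i (deriv (deriv γ) t) +
    ∑ j, ∑ k, M.christoffel i j k (γ t) * comp j (deriv γ t) * comp k (deriv γ t) = 0

end RiemannianPlane

/-- A geodesic net in a Riemannian plane: a finite connected graph embedded in the plane, with
geodesic edges `curve e : [0, len e] → ℝ²` from `src e` to `tgt e`; `unbalanced` is the set of
unbalanced vertices. -/
structure GeodesicNet (M : RiemannianPlane) where
  V : Type
  E : Type
  [fintypeV : Fintype V]
  [decV : DecidableEq V]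
  [fintypeE : Fintype E]
  /-- positions of the vertices -/
  pos : V → Pt
  pos_injective : Function.Injective pos
  /-- initial vertex of an edge -/
  src : E → V
  /-- terminal vertex of an edge -/
  tgt : E → V
  len : E → ℝ
  len_pos : ∀ e, 0 < len e
  curve : E → ℝ → Pt
  curve_smooth : ∀ e, ContDiff ℝ ∞ (curve e)
  curve_geodesic : ∀ e, ∀ t ∈ Icc 0 (len e), M.IsGeodesicAt (curve e) t
  curve_regular : ∀ e, ∀ t ∈ Icc 0 (len e), deriv (curve e) t ≠ 0
  curve_src : ∀ e, curve e 0 = pos (src e)
  curve_tgt : ∀ e, curve e (len e) = pos (tgt e)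
  /-- an edge does not meet itself, except possibly at its end points -/
  simple : ∀ e, ∀ s ∈ Icc 0 (len e), ∀ t ∈ Icc 0 (len e), curve e s = curve e t →
    s = t ∨ ((s = 0 ∨ s = len e) ∧ (t = 0 ∨ t = len e))
  /-- distinct edges meet only at end points -/
  disjoint : ∀ e f, e ≠ f → ∀ s ∈ Icc 0 (len e), ∀ t ∈ Icc 0 (len f), curve e s = curve f t →
    (s = 0 ∨ s = len e) ∧ (t = 0 ∨ t = len f)
  /-- the interior of an edge contains no vertex -/
  avoid : ∀ e v, ∀ t ∈ Icc 0 (len e), curve e t = pos v → t = 0 ∨ t = len e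
  connected : ∀ v w, Relation.ReflTransGen
    (fun a b => ∃ e, (src e = a ∧ tgt e = b) ∨ (src e = b ∧ tgt e = a)) v w
  unbalanced : Finset V
  /-- the degree of a balanced vertex (number of ends of edges at it) is at least three -/
  degree_ge : ∀ v, v ∉ unbalanced → 3 ≤ (∑ e, if src e = v then 1 else 0) +
    (∑ e, if tgt e = v then 1 else 0 : ℕ)
  /-- at a balanced vertex the unit tangent vectors pointing away from the vertex sum to zero -/
  balance : ∀ v, v ∉ unbalanced →
    (∑ e, if src e = v then (M.norm (pos v) (deriv (curve e) 0))⁻¹ • deriv (curve e) 0 else 0) +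
    (∑ e, if tgt e = v then
      (M.norm (pos v) (deriv (curve e) (len e)))⁻¹ • (- deriv (curve e) (len e)) else 0) = 0
  /-- no edge joins two unbalanced vertices -/
  no_unbalanced_edge : ∀ e, ¬ (src e ∈ unbalanced ∧ tgt e ∈ unbalanced)

attribute [instance] GeodesicNet.fintypeV GeodesicNet.decV GeodesicNet.fintypeE

namespace GeodesicNet

variable {M : RiemannianPlane}

/-- The net has exactly one balanced vertex `O`, exactly three edges, and `O` is joined by an edge
to every unbalanced vertex. -/
def IsTripod (N : GeodesicNet M) : Prop :=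
  ∃ O : N.V, (∀ v, v ∉ N.unbalanced ↔ v = O) ∧ Fintype.card N.E = 3 ∧
    ∀ A ∈ N.unbalanced, ∃ e, (N.src e = O ∧ N.tgt e = A) ∨ (N.src e = A ∧ N.tgt e = O)

/-- The degree of a vertex. -/
def degree (N : GeodesicNet M) (v : N.V) : ℕ :=
  (∑ e, if N.src e = v then 1 else 0) + (∑ e, if N.tgt e = v then 1 else 0)

/-- No loops and no two edges with the same end points. -/
def IsSimpleGraph (N : GeodesicNet M) : Prop :=
  (∀ e, N.src e ≠ N.tgt e) ∧
    ∀ e f, ((N.src e = N.src f ∧ N.tgt e = N.tgt f) ∨ (N.src e = N.tgt f ∧ N.tgt e = N.src f)) →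
      e = f

end GeodesicNet

end Helper70.Net
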