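import Pool.Agent.Helper70_Net.Sym

set_option autoImplicit false

open scoped ContDiff
open Set MeasureTheory

namespace Helper70.Net

noncomputable def LL (m : ℝ) : ℝ := 1 + r3 / sig m
noncomputable def XX (m : ℝ) : ℝ := 2 + r3 / sig m - kap m * (r3 / sig m)

lemma gam_one (m : ℝ) : gam m 1 = (1, r3) := by simp [gam, gg_le 1 (by norm_num)]

section
variable {m : ℝ} (hm : 0 < m) (hm' : m < 1 / 20)
include hm hm'

lemma r3_div_sig : 17 < r3 / sig m := by
  obtain ⟨s1, s2⟩ := sig_bounds hm hm'
  rw [lt_div_iff₀ s1]
  have := r3_lb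
  nlinarith

lemma kap_bounds : 0 ≤ kap m ∧ kap m < 1 / 200 := by
  obtain ⟨s1, s2⟩ := sig_bounds hm hm'
  rw [← m_sig]
  constructor
  · positivity
  · nlinarith

lemma XX_gt : 2 < XX m := by
  have h1 := r3_div_sig hm hm'
  obtain ⟨h2, h3⟩ := kap_bounds hm hm'
  unfold XX
  nlinarith

lemma gam_end : gam m (1 + LL m) = (XX m, 0) := by
  have h1 := r3_div_sig hm hm'
  obtain ⟨s1, s2⟩ := sig_bounds hm hm'
  unfold gam LL XX
  rw [gg_ge _ (by linarith)]
  ext
  · simp only; ring
  · simp only
    have : sig m * (r3 / sig m) = r3 := by field_simp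
    linear_combination - this

lemma gam_OS {t : ℝ} (h1 : 1 < t) (h2 : t < 1 + LL m) : OS (gam m t) := by
  obtain ⟨s1, s2⟩ := sig_bounds hm hm'
  have hr := r3_pos
  have hr1 := r3_ub
  have hsr : sig m * (r3 / sig m) = r3 := by field_simp
  unfold LL at h2
  have hk := m_sig m
  have hg := gg_nonneg t
  have hmr : m * r3 < 1 := by nlinarith
  have e1 : 0 ≤ sig m * gg t * (1 - m * r3) := by
    have : 0 ≤ 1 - m * r3 := by linarith
    positivity
  refine ⟨?_, ?_⟩
  · unfold gam
    simp only
    rcases le_total t 2 with h | h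
    · rw [gg_le t h]; linarith
    · have h3 := gg_le_sub t h
      have h4 : sig m * gg t < sig m * (r3 / sig m) :=
        mul_lt_mul_of_pos_left (by linarith) s1
      linarith
  · unfold gam
    simp only
    rw [← hk]
    nlinarith

lemma gam_CS {t : ℝ} (h1 : 1 ≤ t) (h2 : t ≤ 1 + LL m) : CS (gam m t) := by
  rcases h1.eq_or_lt with h | h
  · rw [← h, gam_one]
    refine ⟨r3_pos.le, by simp⟩
  · rcases h2.eq_or_lt with h' | h'
    · rw [h', gam_end hm hm']
      have := XX_gt hm hm'
      have hr := r3_pos
      refine ⟨le_refl _, ?_⟩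
      simp only
      positivity
    · obtain ⟨h3, h4⟩ := gam_OS hm hm' h h'
      exact ⟨h3.le, h4.le⟩

end

abbrev VV := Option G
abbrev Ed := Fin 3 × Option Bool

def srcV : Ed → VV
  | (_, none) => none
  | (k, some _) => some (k, false)

def tgtV : Ed → VV
  | (k, none) => some (k, false)
  | (k, some false) => some (k, true)
  | (k, some true) => some (k + 1, true)

def grp : Ed → G
  | (k, none) => (k, false)
  | (k, some b) => (k, b)

noncomputable def lenB (m : ℝ) : Option Bool → ℝ
  | none => 2
  | some _ => LL m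

noncomputable def base (m : ℝ) : Option Bool → ℝ → Pt
  | none => fun s => (s / 2, r3 / 2 * s)
  | some _ => fun s => gam m (1 + s)

noncomputable def curveE (m : ℝ) (e : Ed) : ℝ → Pt := fun s => TT (grp e) (base m e.2 s)

noncomputable def qpos (m : ℝ) : Bool → Pt
  | false => (1, r3)
  | true => (XX m, 0)

noncomputable def posV (m : ℝ) : VV → Pt
  | none => 0
  | some (k, b) => TT (k, false) (qpos m b)

lemma base_contDiff (m : ℝ) (b : Option Bool) : ContDiff ℝ ∞ (base m b) := by
  cases b with
  | none =>
    unfold base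
    exact (contDiff_id.div_const 2).prodMk (contDiff_const.mul contDiff_id)
  | some b =>
    unfold base
    exact (gam_contDiff m).comp (contDiff_const.add contDiff_id)

lemma base_none_deriv (m : ℝ) : deriv (base m none) = fun _ => (1 / 2, r3 / 2) := by
  funext s
  have h : HasDerivAt (base m none) (1 / 2, r3 / 2 * 1) s :=
    ((hasDerivAt_id s).div_const 2).prodMk ((hasDerivAt_id s).const_mul (r3 / 2))
  rw [h.deriv, mul_one]

lemma base_some_deriv (m : ℝ) (b : Bool) (s : ℝ) :
    deriv (base m (some b)) s = deriv (gam m) (1 + s) := by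
  unfold base
  exact deriv_comp_const_add (gam m) 1 s

lemma base_some_deriv2 (m : ℝ) (b : Bool) (s : ℝ) :
    deriv (deriv (base m (some b))) s = deriv (deriv (gam m)) (1 + s) := by
  have h : deriv (base m (some b)) = fun s => deriv (gam m) (1 + s) :=
    funext fun s => base_some_deriv m b s
  rw [h]
  exact deriv_comp_const_add (deriv (gam m)) 1 s

lemma base_deriv_ne (m : ℝ) (b : Option Bool) (hs : sig m ≠ 0) (s : ℝ) :
    deriv (base m b) s ≠ 0 := by
  cases b with
  | none =>
    rw [base_none_deriv]
    intro h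
    have := congrArg Prod.fst h
    norm_num at this
  | some b =>
    rw [base_some_deriv, gam_deriv]
    intro h
    have h1 := congrArg Prod.fst h
    have h2 := congrArg Prod.snd h
    simp only [Prod.fst_zero, Prod.snd_zero, neg_eq_zero, mul_eq_zero] at h1 h2
    rcases h2 with h2 | h2
    · exact hs h2
    · rw [h2] at h1; norm_num at h1

section
variable {m : ℝ} (hm : 0 < m) (hm' : m < 1 / 20)

lemma CS_line {s : ℝ} (hs : 0 ≤ s) : CS (s / 2, r3 / 2 * s) := by
  have hr := r3_pos
  refine ⟨?_, ?_⟩
  · simp only; positivity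
  · simp only; apply le_of_eq; ring

lemma not_OS_line {s : ℝ} : ¬ OS (s / 2, r3 / 2 * s) := by
  rintro ⟨_, h⟩
  simp only at h
  apply lt_irrefl (r3 / 2 * s)
  calc r3 / 2 * s < r3 * (s / 2) := h
    _ = r3 / 2 * s := by ring

include hm hm'

lemma base_CS (b : Option Bool) {s : ℝ} (hs : s ∈ Icc 0 (lenB m b)) : CS (base m b s) := by
  cases b with
  | none => exact CS_line hs.1
  | some b =>
    have h1 := hs.1
    have h2 : s ≤ LL m := hs.2
    exact gam_CS hm hm' (by linarith) (by linarith)

lemma base_geo (b : Option Bool) {s : ℝ} (hs : s ∈ Icc 0 (lenB m b)) :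
    GeoEq (uu m) (base m b s) (deriv (base m b) s) (deriv (deriv (base m b)) s) := by
  cases b with
  | none =>
    intro w
    have h1 : uu m =ᶠ[nhds (base m none s)] fun _ => 0 :=
      uu_eventually_zero hm hm' (CS_line hs.1) not_OS_line
    rw [h1.fderiv_eq, base_none_deriv]
    simp
  | some b =>
    have hcs := base_CS hm hm' (some b) hs
    have h1 := uu_eventually hm hm' hcs
    intro w
    rw [h1.fderiv_eq, base_some_deriv2, base_some_deriv]
    exact gam_geoEq m (1 + s) w

lemma curveE_geodesic (e : Ed) {s : ℝ} (hs : s ∈ Icc 0 (lenB m e.2)) :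
    (conf (uu m) (uu_contDiff m)).IsGeodesicAt (curveE m e) s := by
  apply isGeodesicAt_of_geoEq
  unfold curveE
  rw [TT_deriv2 _ (base_contDiff m e.2), TT_deriv _ (base_contDiff m e.2)]
  exact geoEq_TT _ (base_geo hm hm' e.2 hs)

lemma LL_pos : 0 < LL m := by
  have := r3_div_sig hm hm'
  unfold LL
  linarith

lemma lenB_pos (b : Option Bool) : 0 < lenB m b := by
  cases b with
  | none => unfold lenB; norm_num
  | some b => exact LL_pos hm hm'

lemma curveE_regular (e : Ed) (s : ℝ) : deriv (curveE m e) s ≠ 0 := by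
  unfold curveE
  rw [TT_deriv _ (base_contDiff m e.2)]
  intro h
  have h0 : TT (grp e) (deriv (base m e.2) s) = TT (grp e) 0 := by rw [h, map_zero]
  exact base_deriv_ne m e.2 (sig_bounds hm hm').1.ne' s (TT_injective _ h0)

omit hm hm' in
lemma curveE_src (e : Ed) : curveE m e 0 = posV m (srcV e) := by
  obtain ⟨k, b⟩ := e
  cases b with
  | none =>
    simp [curveE, grp, base, srcV, posV]
    exact map_zero _
  | some b =>
    simp only [curveE, grp, base, srcV, posV, qpos, add_zero, gam_one]
    cases b with
    | false => rfl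
    | true =>
      have h : (k, true) = mulG (k, false) (0, true) := by simp [mulG]
      rw [h, TT_mul, TT01, ML_apply]
      congr 1
      have hr := r3_sq
      ext
      · simp only; linear_combination (1 / 2) * hr
      · simp only; ring

lemma curveE_tgt (e : Ed) : curveE m e (lenB m e.2) = posV m (tgtV e) := by
  obtain ⟨k, b⟩ := e
  cases b with
  | none =>
    simp only [curveE, grp, base, tgtV, posV, qpos, lenB]
    norm_num
  | some b =>
    simp only [curveE, grp, base, lenB, gam_end hm hm']
    cases b with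
    | false => rfl
    | true =>
      simp only [tgtV, posV, qpos]
      have h : (k, true) = mulG (k, false) (0, true) := by simp [mulG]
      have h' : (k + 1, false) = mulG (k, false) (1, false) := by simp [mulG]
      rw [h, h', TT_mul, TT_mul, TT01, TT10, ML_apply, RL_apply]
      congr 1
      ext
      · simp only; ring
      · simp only; ring

omit hm hm' in
lemma base_injective (b : Option Bool) : Function.Injective (base m b) := by
  intro s t h
  cases b with
  | none =>
    have := congrArg Prod.fst h
    simp only [base] at this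
    linarith
  | some b =>
    have := congrArg (tau m) h
    simp only [base, tau_gam] at this
    linarith

omit hm hm' in
lemma curveE_injective (e : Ed) : Function.Injective (curveE m e) := by
  intro s t h
  exact base_injective _ (TT_injective _ h)

lemma base_long_OS (b : Bool) {s : ℝ} (hs : s ∈ Icc 0 (LL m)) (h0 : s ≠ 0) (h1 : s ≠ LL m) :
    OS (base m (some b) s) := by
  have h2 : 0 < s := lt_of_le_of_ne hs.1 (Ne.symm h0)
  have h3 : s < LL m := lt_of_le_of_ne hs.2 h1
  exact gam_OS hm hm' (by linarith) (by linarith)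

omit hm hm' in
lemma dot_line (s : ℝ) : dot (s / 2, r3 / 2 * s) (s / 2, r3 / 2 * s) = s ^ 2 := by
  have := r3_sq
  unfold dot
  simp only
  linear_combination (s ^ 2 / 4) * this

omit hm hm' in
lemma dot_V : dot (1, r3) (1, r3) = 4 := by
  have := r3_sq
  unfold dot
  simp only
  linear_combination this

omit hm hm' in
lemma dot_A : dot (XX m, 0) (XX m, 0) = XX m ^ 2 := by
  unfold dot; simp only; ring

lemma line_ne_A {s : ℝ} (hs : s ∈ Icc (0 : ℝ) 2) (i j : G) :
    TT i (s / 2, r3 / 2 * s) ≠ TT j (XX m, 0) := by
  intro h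
  have h1 := TT_dot i (s / 2, r3 / 2 * s) (s / 2, r3 / 2 * s)
  rw [h, TT_dot, dot_A, dot_line] at h1
  have := XX_gt hm hm'
  have := hs.1
  have := hs.2
  nlinarith

omit hm hm' in
lemma line_eq_V {s : ℝ} (hs : s ∈ Icc (0 : ℝ) 2) (i j : G)
    (h : TT i (s / 2, r3 / 2 * s) = TT j (1, r3)) : s = 2 := by
  have h1 := TT_dot i (s / 2, r3 / 2 * s) (s / 2, r3 / 2 * s)
  rw [h, TT_dot, dot_V, dot_line] at h1
  have := hs.1
  have := hs.2
  nlinarith

lemma disj1 (e f : Ed) (hef : e ≠ f) {s t : ℝ} (hs : s ∈ Icc 0 (lenB m e.2))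
    (ht : t ∈ Icc 0 (lenB m f.2)) (h : curveE m e s = curveE m f t) :
    s = 0 ∨ s = lenB m e.2 := by
  obtain ⟨k, b⟩ := e
  obtain ⟨k', b'⟩ := f
  cases b with
  | some b =>
    by_contra hcon
    push Not at hcon
    have hOS := base_long_OS hm hm' b hs hcon.1 hcon.2
    have hCS := base_CS hm hm' b' ht
    obtain ⟨h1, h2⟩ := lemA hOS hCS h
    cases b' with
    | none =>
      rw [h2] at hOS
      exact not_OS_line hOS
    | some b' =>
      apply hef
      simp only [grp] at h1
      rw [Prod.mk.injEq] at h1
      rw [h1.1, h1.2]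
  | none =>
    cases b' with
    | some b' =>
      by_cases hcon : t = 0 ∨ t = LL m
      · rcases hcon with hcon | hcon
        · right
          subst hcon
          simp only [curveE, base, add_zero, gam_one] at h
          exact line_eq_V hs _ _ h
        · exfalso
          subst hcon
          simp only [curveE, base, gam_end hm hm'] at h
          exact line_ne_A hm hm' hs _ _ h
      · exfalso
        push Not at hcon
        have hOS := base_long_OS hm hm' b' ht hcon.1 hcon.2
        have hCS := base_CS hm hm' none hs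
        obtain ⟨h1, h2⟩ := lemA hOS hCS h.symm
        rw [h2] at hOS
        exact not_OS_line hOS
    | none =>
      left
      have hkk : k ≠ k' := by
        intro hc
        apply hef
        rw [hc]
      simp only [curveE, base, grp] at h
      have h1 := TT_dot (k, false) (s / 2, r3 / 2 * s) (s / 2, r3 / 2 * s)
      rw [h, TT_dot, dot_line, dot_line] at h1
      have hs0 := hs.1
      have ht0 := ht.1
      have hst : s = t := ((pow_left_inj₀ ht0 hs0 two_ne_zero).mp h1).symm
      subst hst
      have h2 := lemB hkk (CS_line hs0) h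
      have h3 := congrArg Prod.fst h2
      simp only [Prod.fst_zero] at h3
      linarith

omit hm hm' in
lemma CS_zero : CS 0 := ⟨by simp, by simp⟩
omit hm hm' in
lemma not_OS_zero : ¬ OS 0 := by rintro ⟨h, _⟩; simp at h

lemma qpos_CS (b : Bool) : CS (qpos m b) ∧ ¬ OS (qpos m b) := by
  cases b with
  | false =>
    refine ⟨⟨r3_pos.le, by simp [qpos]⟩, ?_⟩
    rintro ⟨_, h⟩
    simp [qpos] at h
  | true =>
    have := XX_gt hm hm'
    have hr := r3_pos
    refine ⟨⟨le_refl _, ?_⟩, ?_⟩
    · simp only [qpos]; positivity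
    · rintro ⟨h, _⟩
      simp [qpos] at h

lemma posV_form (v : VV) : ∃ (j : G) (q : Pt), CS q ∧ ¬ OS q ∧ posV m v = TT j q := by
  cases v with
  | none => exact ⟨(0, false), 0, CS_zero, not_OS_zero, by simp [posV]⟩
  | some kb =>
    obtain ⟨k, b⟩ := kb
    obtain ⟨h1, h2⟩ := qpos_CS hm hm' b
    exact ⟨(k, false), qpos m b, h1, h2, rfl⟩

lemma curveE_avoid (e : Ed) (v : VV) {t : ℝ} (ht : t ∈ Icc 0 (lenB m e.2))
    (h : curveE m e t = posV m v) : t = 0 ∨ t = lenB m e.2 := by
  obtain ⟨k, b⟩ := e
  cases b with
  | some b =>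
    by_contra hcon
    push Not at hcon
    have hOS := base_long_OS hm hm' b ht hcon.1 hcon.2
    obtain ⟨j, q, hq1, hq2, hq3⟩ := posV_form hm hm' v
    rw [hq3] at h
    obtain ⟨_, h2⟩ := lemA hOS hq1 h
    rw [h2] at hOS
    exact hq2 hOS
  | none =>
    cases v with
    | none =>
      left
      simp only [curveE, base, posV] at h
      have h1 := TT_dot (grp (k, none)) (t / 2, r3 / 2 * t) (t / 2, r3 / 2 * t)
      rw [h, dot_line] at h1
      have h2 : dot (0 : Pt) 0 = 0 := by simp [dot]
      rw [h2] at h1
      exact pow_eq_zero_iff (two_ne_zero) |>.mp h1.symm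
    | some kb =>
      obtain ⟨k', b'⟩ := kb
      cases b' with
      | false => exact Or.inr (line_eq_V ht _ _ h)
      | true => exact absurd h (line_ne_A hm hm' ht _ _)

lemma posV_injective : Function.Injective (posV m) := by
  have hX := XX_gt hm hm'
  have hdot : ∀ v, dot (posV m v) (posV m v) =
      match v with
      | none => 0
      | some (_, false) => 4
      | some (_, true) => XX m ^ 2 := by
    intro v
    cases v with
    | none => simp [posV, dot]
    | some kb =>
      obtain ⟨k, b⟩ := kb
      cases b with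
      | false => simp only [posV, qpos, TT_dot, dot_V]
      | true => simp only [posV, qpos, TT_dot, dot_A]
  have hX2 : 4 < XX m ^ 2 := by nlinarith
  intro v w h
  have hd : dot (posV m v) (posV m v) = dot (posV m w) (posV m w) := by rw [h]
  rw [hdot, hdot] at hd
  match v, w with
  | none, none => rfl
  | none, some (k, false) => simp at hd
  | none, some (k, true) => simp at hd; linarith
  | some (k, false), none => simp at hd
  | some (k, true), none => simp at hd; linarith
  | some (k, false), some (k', true) => simp at hd; linarith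
  | some (k, true), some (k', false) => simp at hd; linarith
  | some (k, false), some (k', false) =>
    by_cases hk : k = k'
    · rw [hk]
    · exfalso
      have h2 := lemB hk (qpos_CS hm hm' false).1 h
      have h3 := congrArg Prod.fst h2
      simp [qpos] at h3
  | some (k, true), some (k', true) =>
    by_cases hk : k = k'
    · rw [hk]
    · exfalso
      have h2 := lemB hk (qpos_CS hm hm' true).1 h
      have h3 := congrArg Prod.fst h2
      simp [qpos] at h3
      linarith

lemma uu_posV (v : VV) : uu m (posV m v) = 0 := by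
  obtain ⟨j, q, hq1, hq2, hq3⟩ := posV_form hm hm' v
  rw [hq3, uu_TT]
  exact (uu_eventually_zero hm hm' hq1 hq2).self_of_nhds

lemma norm_posV (v : VV) (w : Pt) (hw : dot w w = 1) :
    (conf (uu m) (uu_contDiff m)).norm (posV m v) w = 1 := by
  rw [conf_norm, uu_posV hm hm' v]
  have h : w.1 ^ 2 + w.2 ^ 2 = 1 := by
    unfold dot at hw
    linear_combination hw
  rw [h]
  simp

end

def unb : Finset VV := {some (0, true), some (1, true), some (2, true)}

lemma srcV_not_unb : ∀ e : Ed, srcV e ∉ unb := by decide

lemma deg_lemma : ∀ v : VV, v ∉ unb →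
    (∑ e : Ed, if srcV e = v then 1 else 0) + (∑ e : Ed, if tgtV e = v then 1 else 0 : ℕ) = 3 := by
  decide

lemma conn1 (v : VV) : Relation.ReflTransGen
    (fun a b => ∃ e, (srcV e = a ∧ tgtV e = b) ∨ (srcV e = b ∧ tgtV e = a)) v none := by
  match v with
  | none => exact Relation.ReflTransGen.refl
  | some (k, false) =>
    exact Relation.ReflTransGen.single ⟨(k, none), Or.inr ⟨rfl, rfl⟩⟩
  | some (k, true) =>
    exact (Relation.ReflTransGen.single ⟨(k, some false), Or.inr ⟨rfl, rfl⟩⟩).trans
      (Relation.ReflTransGen.single ⟨(k, none), Or.inr ⟨rfl, rfl⟩⟩)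

lemma conn2 (v : VV) : Relation.ReflTransGen
    (fun a b => ∃ e, (srcV e = a ∧ tgtV e = b) ∨ (srcV e = b ∧ tgtV e = a)) none v := by
  match v with
  | none => exact Relation.ReflTransGen.refl
  | some (k, false) =>
    exact Relation.ReflTransGen.single ⟨(k, none), Or.inl ⟨rfl, rfl⟩⟩
  | some (k, true) =>
    exact (Relation.ReflTransGen.single ⟨(k, none), Or.inl ⟨rfl, rfl⟩⟩).trans
      (Relation.ReflTransGen.single ⟨(k, some false), Or.inl ⟨rfl, rfl⟩⟩)

end Helper70.Net
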