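import Pool.Agent.Helper70_Net.Bump

set_option autoImplicit false

open scoped ContDiff
open Set MeasureTheory

namespace Helper70.Net

/-- Rotation by 120 degrees. -/
noncomputable def RL : Pt →L[ℝ] Pt :=
  ((-(1 / 2 : ℝ)) • ContinuousLinearMap.fst ℝ ℝ ℝ -
      (r3 / 2) • ContinuousLinearMap.snd ℝ ℝ ℝ).prod
    ((r3 / 2) • ContinuousLinearMap.fst ℝ ℝ ℝ - (1 / 2 : ℝ) • ContinuousLinearMap.snd ℝ ℝ ℝ)

/-- Reflection in the line `y = √3 x`. -/
noncomputable def ML : Pt →L[ℝ] Pt :=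
  ((-(1 / 2 : ℝ)) • ContinuousLinearMap.fst ℝ ℝ ℝ +
      (r3 / 2) • ContinuousLinearMap.snd ℝ ℝ ℝ).prod
    ((r3 / 2) • ContinuousLinearMap.fst ℝ ℝ ℝ + (1 / 2 : ℝ) • ContinuousLinearMap.snd ℝ ℝ ℝ)

lemma RL_apply (p : Pt) : RL p = (-(p.1 / 2) - r3 / 2 * p.2, r3 / 2 * p.1 - p.2 / 2) := by
  simp [RL]
  constructor <;> ring
lemma ML_apply (p : Pt) : ML p = (-(p.1 / 2) + r3 / 2 * p.2, r3 / 2 * p.1 + p.2 / 2) := by
  simp [ML]
  constructor <;> ring

lemma RRR (p : Pt) : RL (RL (RL p)) = p := by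
  have h := r3_sq
  simp only [RL_apply]
  ext
  · simp only; linear_combination (3 / 8 * p.1 + r3 * p.2 / 8) * h
  · simp only; linear_combination (3 / 8 * p.2 - r3 * p.1 / 8) * h

lemma MM (p : Pt) : ML (ML p) = p := by
  have h := r3_sq
  simp only [ML_apply]
  ext
  · simp only; linear_combination (p.1 / 4) * h
  · simp only; linear_combination (p.2 / 4) * h

lemma MR (p : Pt) : ML (RL p) = RL (RL (ML p)) := by
  have h := r3_sq
  simp only [ML_apply, RL_apply]
  ext
  · simp only; linear_combination (-1 / 8 * p.1 + r3 * p.2 / 8) * h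
  · simp only; linear_combination (1 / 8 * p.2 + r3 * p.1 / 8) * h

abbrev G := Fin 3 × Bool

/-- The six symmetries. -/
noncomputable def TT : G → (Pt →L[ℝ] Pt)
  | (0, false) => ContinuousLinearMap.id ℝ Pt
  | (1, false) => RL
  | (2, false) => RL.comp RL
  | (0, true) => ML
  | (1, true) => RL.comp ML
  | (2, true) => RL.comp (RL.comp ML)

def mulG (i j : G) : G := (if i.2 then i.1 - j.1 else i.1 + j.1, xor i.2 j.2)
def invG (i : G) : G := if i.2 then i else (-i.1, false)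

lemma TT00 (p : Pt) : TT (0, false) p = p := rfl
lemma TT10 (p : Pt) : TT (1, false) p = RL p := rfl
lemma TT20 (p : Pt) : TT (2, false) p = RL (RL p) := rfl
lemma TT01 (p : Pt) : TT (0, true) p = ML p := rfl
lemma TT11 (p : Pt) : TT (1, true) p = RL (ML p) := rfl
lemma TT21 (p : Pt) : TT (2, true) p = RL (RL (ML p)) := rfl

lemma neg1 : (-1 : Fin 3) = 2 := rfl
lemma neg2 : (-2 : Fin 3) = 1 := rfl

lemma TT_mul (i j : G) (p : Pt) : TT (mulG i j) p = TT i (TT j p) := by
  obtain ⟨k, b⟩ := i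
  obtain ⟨k', b'⟩ := j
  fin_cases k <;> cases b <;> fin_cases k' <;> cases b' <;>
    simp [mulG, TT00, TT10, TT20, TT01, TT11, TT21, MR, MM, RRR, neg1, neg2]

lemma mul_inv_right' : ∀ i : G, mulG (invG i) i = (0, false) := by decide
lemma inv_mul_ne : ∀ i j : G, i ≠ j → mulG (invG i) j ≠ (0, false) := by decide

lemma TT_inv (i : G) (p : Pt) : TT (invG i) (TT i p) = p := by
  rw [← TT_mul, mul_inv_right', TT00]

lemma TT_injective (i : G) : Function.Injective (TT i) := by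
  intro p q h
  rw [← TT_inv i p, h, TT_inv]

lemma TT_surj (i : G) (p : Pt) : ∃ q, TT i q = p := by
  refine ⟨TT (invG i) p, ?_⟩
  rw [← TT_mul]
  have : ∀ i : G, mulG i (invG i) = (0, false) := by decide
  rw [this, TT00]

/-- inner product -/
def dot (v w : Pt) : ℝ := v.1 * w.1 + v.2 * w.2

lemma RL_dot (v w : Pt) : dot (RL v) (RL w) = dot v w := by
  have h := r3_sq
  simp only [RL_apply, dot]
  linear_combination (v.1 * w.1 / 4 + v.2 * w.2 / 4) * h
lemma ML_dot (v w : Pt) : dot (ML v) (ML w) = dot v w := by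
  have h := r3_sq
  simp only [ML_apply, dot]
  linear_combination (v.1 * w.1 / 4 + v.2 * w.2 / 4) * h

lemma TT_dot (i : G) (v w : Pt) : dot (TT i v) (TT i w) = dot v w := by
  obtain ⟨k, b⟩ := i
  fin_cases k <;> cases b <;> simp [TT00, TT10, TT20, TT01, TT11, TT21, RL_dot, ML_dot]

/-- The symmetric conformal factor. -/
noncomputable def uu (m : ℝ) (p : Pt) : ℝ := ∑ i : G, bb m (TT i p)

section

seal TT bb

lemma uu_contDiff2 : ContDiff ℝ ∞ (fun q : ℝ × Pt => uu q.1 q.2) := by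
  unfold uu
  refine ContDiff.sum fun i _ => ?_
  have h0 : ContDiff ℝ ∞ (fun q : ℝ × Pt => TT i q.2) := (TT i).contDiff.comp contDiff_snd
  have h1 : ContDiff ℝ ∞ (fun q : ℝ × Pt => (q.1, TT i q.2)) := contDiff_fst.prodMk h0
  exact bb_contDiff.comp h1

seal uu

lemma uu_contDiff (m : ℝ) : ContDiff ℝ ∞ (uu m) := by
  have h1 : ContDiff ℝ ∞ (fun p : Pt => (m, p)) := contDiff_const.prodMk contDiff_id
  exact uu_contDiff2.comp h1

end

lemma mulG_bij : ∀ j : G, Function.Bijective (fun i : G => mulG i j) := by decide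

lemma uu_TT (m : ℝ) (j : G) (p : Pt) : uu m (TT j p) = uu m p := by
  have h : ∀ i : G, bb m (TT i (TT j p)) = bb m (TT (mulG i j) p) := by
    intro i
    rw [TT_mul]
  unfold uu
  rw [Finset.sum_congr rfl (fun i _ => h i)]
  exact Fintype.sum_bijective (fun i => mulG i j) (mulG_bij j) _ _ (fun i => rfl)


lemma not_OS_of_CS (i : G) (hi : i ≠ (0, false)) {p : Pt} (h : CS p) : ¬ OS (TT i p) := by
  obtain ⟨h1, h2⟩ := h
  have hr := r3_sq
  have hr0 := r3_pos
  have hx : 0 ≤ p.1 := by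
    by_contra hc
    push Not at hc
    nlinarith
  have hr3y : 0 ≤ r3 * p.2 := by positivity
  have hr3x : 0 ≤ r3 * p.1 := by positivity
  rintro ⟨h3, h4⟩
  obtain ⟨k, b⟩ := i
  fin_cases k <;> cases b
  · exact hi rfl
  · change 0 < (ML p).2 at h3
    change (ML p).2 < r3 * (ML p).1 at h4
    simp only [ML_apply] at h3 h4
    nlinarith
  · change 0 < (RL p).2 at h3
    change (RL p).2 < r3 * (RL p).1 at h4
    simp only [RL_apply] at h3 h4
    nlinarith
  · change 0 < (RL (ML p)).2 at h3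
    change (RL (ML p)).2 < r3 * (RL (ML p)).1 at h4
    simp only [RL_apply, ML_apply] at h3 h4
    nlinarith
  · change 0 < (RL (RL p)).2 at h3
    simp only [RL_apply] at h3
    nlinarith
  · change 0 < (RL (RL (ML p))).2 at h3
    rw [← MR] at h3
    simp only [RL_apply, ML_apply] at h3
    nlinarith

lemma lemA {i j : G} {q q' : Pt} (hq : OS q) (hq' : CS q') (h : TT i q = TT j q') :
    i = j ∧ q = q' := by
  by_cases hij : i = j
  · subst hij
    exact ⟨rfl, TT_injective i h⟩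
  · exfalso
    have h2 : q = TT (mulG (invG i) j) q' := by
      rw [TT_mul, ← h, TT_inv]
    rw [h2] at hq
    exact not_OS_of_CS _ (inv_mul_ne i j hij) hq' hq

lemma lemB {k k' : Fin 3} (hk : k ≠ k') {q : Pt} (hq : CS q)
    (h : TT (k, false) q = TT (k', false) q) : q = 0 := by
  obtain ⟨h1, h2⟩ := hq
  have hr := r3_sq
  have hr0 := r3_pos
  have hx : 0 ≤ q.1 := by
    by_contra hc
    push Not at hc
    nlinarith
  have key : RL q = q → q = 0 := by
    intro hR
    rw [RL_apply] at hR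
    have e1 : -(q.1 / 2) - r3 / 2 * q.2 = q.1 := congrArg Prod.fst hR
    have e2 : 0 ≤ r3 * q.2 := by positivity
    have e3 : q.1 = 0 := by linarith
    have e4 : q.2 = 0 := by
      rw [e3] at h2
      linarith
    exact Prod.ext e3 e4
  have hkk' : ∀ k k' : Fin 3, k ≠ k' → (k = 0 ∧ k' = 1) ∨ (k = 0 ∧ k' = 2) ∨ (k = 1 ∧ k' = 0) ∨
      (k = 1 ∧ k' = 2) ∨ (k = 2 ∧ k' = 0) ∨ (k = 2 ∧ k' = 1) := by decide
  have hkk := hkk' k k' hk
  have hinj := TT_injective (1, false)
  rcases hkk with ⟨rfl, rfl⟩ | ⟨rfl, rfl⟩ | ⟨rfl, rfl⟩ | ⟨rfl, rfl⟩ | ⟨rfl, rfl⟩ | ⟨rfl, rfl⟩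
  · rw [TT00, TT10] at h; exact key h.symm
  · rw [TT00, TT20] at h
    apply key
    conv_lhs => rw [h]
    exact RRR q
  · rw [TT00, TT10] at h; exact key h
  · rw [TT20, TT10] at h; exact key (hinj h).symm
  · rw [TT00, TT20] at h
    apply key
    conv_lhs => rw [← h]
    exact RRR q
  · rw [TT20, TT10] at h; exact key (hinj h)

lemma uu_eventually {m : ℝ} (hm : 0 < m) (hm' : m < 1 / 20) {p : Pt} (hp : CS p) :
    uu m =ᶠ[nhds p] bb m := by
  have h : ∀ i : G, i ≠ (0, false) → ∀ᶠ p' in nhds p, bb m (TT i p') = 0 := by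
    intro i hi
    have h1 : TT i p ∉ SupSet m := fun hc => not_OS_of_CS i hi hp (supSet_OS hm hm' hc)
    have h2 : IsOpen {p' | TT i p' ∉ SupSet m} :=
      ((supSet_closed m).preimage (TT i).continuous).isOpen_compl
    filter_upwards [h2.mem_nhds h1] with p' hp'
    exact bb_eq_zero_of_notMem hp'
  have h3 : ∀ᶠ p' in nhds p, ∀ i : G, i ≠ (0, false) → bb m (TT i p') = 0 := by
    rw [Filter.eventually_all]
    intro i
    by_cases hi : i = (0, false)
    · simp [hi]
    · filter_upwards [h i hi] with p' hp' _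
      exact hp'
  filter_upwards [h3] with p' hp'
  unfold uu
  rw [Finset.sum_eq_single (0, false)]
  · rfl
  · intro i _ hi
    exact hp' i hi
  · intro hc
    exact absurd (Finset.mem_univ _) hc

lemma uu_eventually_zero {m : ℝ} (hm : 0 < m) (hm' : m < 1 / 20) {p : Pt} (hp : CS p)
    (hp' : ¬ OS p) : uu m =ᶠ[nhds p] fun _ => 0 := by
  refine (uu_eventually hm hm' hp).trans ?_
  have h1 : p ∉ SupSet m := fun hc => hp' (supSet_OS hm hm' hc)
  filter_upwards [(supSet_closed m).isOpen_compl.mem_nhds h1] with p' hp'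
  exact bb_eq_zero_of_notMem hp'

seal TT uu

/-- Transfer of the geodesic equation along a symmetry. -/
lemma geoEq_TT {m : ℝ} {p v a : Pt} (i : G) (h : GeoEq (uu m) p v a) :
    GeoEq (uu m) (TT i p) (TT i v) (TT i a) := by
  have hf : ∀ w, fderiv ℝ (uu m) (TT i p) (TT i w) = fderiv ℝ (uu m) p w := by
    intro w
    have h1 : HasFDerivAt (uu m) (fderiv ℝ (uu m) (TT i p)) (TT i p) :=
      ((uu_contDiff m).differentiable (by simp) _).hasFDerivAt
    have h2 := h1.comp p (TT i).hasFDerivAt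
    have h3 : (uu m) ∘ (TT i) = uu m := funext fun q => uu_TT m i q
    rw [h3] at h2
    rw [h2.fderiv]
    rfl
  intro w
  obtain ⟨w, rfl⟩ := TT_surj i w
  have := h w
  rw [hf, hf]
  have d1 := TT_dot i a w
  have d2 := TT_dot i v w
  have d3 := TT_dot i v v
  simp only [dot] at d1 d2 d3
  linear_combination this + d1 + 2 * fderiv ℝ (uu m) p v * d2 - fderiv ℝ (uu m) p w * d3

lemma TT_deriv (i : G) {γ : ℝ → Pt} (hγ : ContDiff ℝ ∞ γ) (t : ℝ) :
    deriv (fun s => TT i (γ s)) t = TT i (deriv γ t) := by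
  have h1 : HasDerivAt γ (deriv γ t) t := (hγ.differentiable (by simp) t).hasDerivAt
  exact ((TT i).hasFDerivAt.comp_hasDerivAt t h1).deriv

lemma TT_deriv2 (i : G) {γ : ℝ → Pt} (hγ : ContDiff ℝ ∞ γ) (t : ℝ) :
    deriv (deriv (fun s => TT i (γ s))) t = TT i (deriv (deriv γ) t) := by
  have h : deriv (fun s => TT i (γ s)) = fun s => TT i (deriv γ s) :=
    funext fun s => TT_deriv i hγ s
  rw [h]
  exact TT_deriv i (contDiff_infty_iff_deriv.mp hγ).2 t

end Helper70.Net
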